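import Mathlib

set_option autoImplicit false

namespace Pool.Agent.Results.MP_b9e70b_co.MonoPack

open SimpleGraph Finset

abbrev W (p : ℕ) : Type := Fin (2 * p ^ 2 - p) ⊕ (Bool × ZMod p × ZMod p)

def ad (p : ℕ) : W p → W p → Prop
  | .inl _, .inl _ => False
  | .inl _, .inr _ => True
  | .inr _, .inl _ => True
  | .inr x, .inr y => x.1 ≠ y.1 ∧ x.2.2 + y.2.2 = x.2.1 * y.2.1

def G0 (p : ℕ) : SimpleGraph (W p) where
  Adj := ad p
  symm := ⟨by
    rintro (a | a) (b | b) h
    · exact h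
    · trivial
    · trivial
    · exact ⟨h.1.symm, by rw [add_comm, mul_comm]; exact h.2⟩⟩
  loopless := ⟨by
    rintro (a | a) h
    · exact h
    · exact h.1 rfl⟩

open Classical in
lemma reg (p : ℕ) [Fact p.Prime] : (G0 p).IsRegularOfDegree (2 * p ^ 2) := by
  intro v
  rw [← card_neighborFinset_eq_degree, neighborFinset_eq_filter, card_filter, Fintype.sum_sum_type]
  rcases v with a | ⟨s, a, b⟩
  · simp [G0, ad, ZMod.card]
    ring
  · have h1 : (∑ x : Bool × ZMod p × ZMod p,
        if (G0 p).Adj (.inr (s, a, b)) (.inr x) then 1 else 0) = p := by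
      rw [← card_filter]
      have : univ.filter (fun x : Bool × ZMod p × ZMod p => (G0 p).Adj (.inr (s, a, b)) (.inr x)) =
          univ.image (fun x : ZMod p => (!s, x, a * x - b)) := by
        ext ⟨t, x, y⟩
        simp only [G0, ad, mem_filter, mem_univ, true_and, mem_image, Prod.mk.injEq]
        constructor
        · rintro ⟨h1, h2⟩
          exact ⟨x, by cases s <;> cases t <;> simp_all, rfl, by rw [← h2]; ring⟩
        · rintro ⟨z, rfl, rfl, rfl⟩
          exact ⟨by cases s <;> simp, by ring⟩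
      rw [this, card_image_of_injective _ (fun x y h => (Prod.mk.inj (Prod.mk.inj h).2).1),
        card_univ, ZMod.card]
    rw [h1]
    have : p ≤ 2 * p ^ 2 := by nlinarith
    simp [G0, ad]
    omega

open Classical in
noncomputable def col (p : ℕ) (e : Sym2 (W p)) : Fin 2 :=
  if ∀ x ∈ e, x.isRight = true then 0 else 1

lemma two_left (p : ℕ) [Fact p.Prime] (φ : (cycleGraph 4).Copy (G0 p)) (c : Fin 2)
    (h : ∀ u v, (cycleGraph 4).Adj u v → col p s(φ u, φ v) = c) :
    (∑ u : Fin 4, if (φ u).isLeft = true then 1 else 0) = 2 := by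
  have A : ∀ i j, (cycleGraph 4).Adj i j → ad p (φ i) (φ j) := fun i j h => φ.toHom.map_adj h
  have N : ∀ i j, i ≠ j → φ i ≠ φ j := fun i j h e => h (φ.injective e)
  have a01 := A 0 1 (by decide)
  have a12 := A 1 2 (by decide)
  have a23 := A 2 3 (by decide)
  have a30 := A 3 0 (by decide)
  have c01 := h 0 1 (by decide)
  have c12 := h 1 2 (by decide)
  have c23 := h 2 3 (by decide)
  have c30 := h 3 0 (by decide)
  have n02 := N 0 2 (by decide)
  have n13 := N 1 3 (by decide)
  rw [Fin.sum_univ_four]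
  subst c01
  generalize φ 0 = w at *
  generalize φ 1 = x at *
  generalize φ 2 = y at *
  generalize φ 3 = z at *
  rcases w with w | w <;> rcases x with x | x <;> rcases y with y | y <;> rcases z with z | z <;>
    simp [col, ad] at a01 a12 a23 a30 c12 c23 c30 n02 n13 ⊢
  obtain ⟨s0, a0, b0⟩ := w
  obtain ⟨s1, a1, b1⟩ := x
  obtain ⟨s2, a2, b2⟩ := y
  obtain ⟨s3, a3, b3⟩ := z
  simp only at a01 a12 a23 a30
  have e : (a0 - a2) * (a1 - a3) = 0 := by
    linear_combination -a01.2 + a12.2 - a23.2 + a30.2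
  rcases mul_eq_zero.mp e with e | e
  · have e1 : a0 = a2 := sub_eq_zero.mp e
    have e2 : b0 = b2 := by linear_combination a01.2 - a12.2 + a1 * e
    have e3 : s0 = s2 := by
      have := a01.1; have := a12.1
      cases s0 <;> cases s1 <;> cases s2 <;> simp_all
    exact n02 (by rw [e1, e2, e3])
  · have e1 : a1 = a3 := sub_eq_zero.mp e
    have e2 : b1 = b3 := by linear_combination a01.2 - a30.2 + a0 * e
    have e3 : s1 = s3 := by
      have := a12.1; have := a23.1
      cases s1 <;> cases s2 <;> cases s3 <;> simp_all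
    exact n13 (by rw [e1, e2, e3])

open Classical in
theorem result : ¬ ∀ (h : ℕ) (H : SimpleGraph (Fin h)), H.Colorable 2 →
    ∀ r : ℕ, 2 ≤ r → ∀ c : ℝ, 0 < c → c < 1 → ∃ C : ℝ, 0 < C ∧
      ∀ (V : Type) [Fintype V] (G : SimpleGraph V) (d : ℕ), G.IsRegularOfDegree d →
        c * Fintype.card V ≤ d → ∀ χ : Sym2 V → Fin r,
          ∃ (k : ℕ) (φ : Fin k → H.Copy G),
            Function.Injective (fun q : Fin k × Fin h => φ q.1 q.2) ∧
            (∀ i, ∃ a : Fin r, ∀ u v, H.Adj u v → χ s(φ i u, φ i v) = a) ∧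
            ((Set.range (fun q : Fin k × Fin h => φ q.1 q.2))ᶜ.ncard : ℝ) ≤ C := by
  intro h
  obtain ⟨C, -, hC⟩ := h 4 (cycleGraph 4)
    ⟨Coloring.mk (fun i => if i.val % 2 = 0 then 0 else 1) (by decide)⟩ 2 le_rfl (1 / 2)
    (by norm_num) (by norm_num)
  obtain ⟨p, hp1, hp⟩ := Nat.exists_infinite_primes (⌈C⌉₊ + 1)
  have : Fact p.Prime := ⟨hp⟩
  have hle : p ≤ 2 * p ^ 2 := by nlinarith
  have hc : Fintype.card (W p) = 2 * p ^ 2 - p + 2 * p ^ 2 := by
    simp [ZMod.card]; ring
  obtain ⟨k, φ, h1, h2, h3⟩ := hC (W p) (G0 p) (2 * p ^ 2) (by convert reg p) (by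
    have : Fintype.card (W p) ≤ 2 * (2 * p ^ 2) := by omega
    have : (Fintype.card (W p) : ℝ) ≤ 2 * ((2 * p ^ 2 : ℕ) : ℝ) := by exact_mod_cast this
    linarith) (col p)
  have e1 := Set.ncard_add_ncard_compl (Set.range (fun q : Fin k × Fin 4 => φ q.1 q.2))
  rw [Set.ncard_range_of_injective h1, Nat.card_eq_fintype_card, Nat.card_eq_fintype_card, hc,
    Fintype.card_prod, Fintype.card_fin, Fintype.card_fin] at e1
  have e2 : (univ.filter (fun q : Fin k × Fin 4 => (φ q.1 q.2).isLeft = true)).card ≤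
      (univ.filter (fun v : W p => v.isLeft = true)).card := by
    apply card_le_card_of_injOn (fun q => φ q.1 q.2)
    · intro q hq
      exact mem_filter.mpr ⟨mem_univ _, (mem_filter.mp hq).2⟩
    · exact h1.injOn
  have e3 : (univ.filter (fun v : W p => v.isLeft = true)).card = 2 * p ^ 2 - p := by
    rw [card_filter, Fintype.sum_sum_type]
    simp
  rw [e3, card_filter, Fintype.sum_prod_type,
    sum_congr rfl (fun i _ => (h2 i).elim (fun a ha => two_left p (φ i) a ha))] at e2
  simp only [sum_const, card_univ, Fintype.card_fin, smul_eq_mul] at e2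
  have e4 : ⌈C⌉₊ + 1 ≤ (Set.range (fun q : Fin k × Fin 4 => φ q.1 q.2))ᶜ.ncard := by omega
  have e5 : ((⌈C⌉₊ + 1 : ℕ) : ℝ) ≤ (Set.range (fun q : Fin k × Fin 4 => φ q.1 q.2))ᶜ.ncard := by
    exact_mod_cast e4
  have := Nat.le_ceil C
  push_cast at e5
  linarith

end Pool.Agent.Results.MP_b9e70b_co.MonoPack
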